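import Pool.Agent.H83.V.T1

/-!
# Board lvv_modules, row PGV: the inequality for a pair of processes with rare mismatches
-/

set_option autoImplicit false

open MeasureTheory ProbabilityTheory Filter Topology Finset
open scoped Nat ENNReal

namespace Pool.Agent.H54.V

open Pool.Agent.H67.AG (avgP ul Inv)
open Pool.Agent.H28.LF (Wd La Cd dm ds)
open Pool.Agent.H83.V

theorem pgv_dm_meas {Ω : Type} [MeasurableSpace Ω] {q : ℕ} {a a' : Ω → Fin q} (ha : Measurable a)
    (ha' : Measurable a') : Measurable (dm a a') := by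
  unfold dm
  exact Measurable.ite (measurableSet_eq_fun ha ha') measurable_const measurable_const

theorem pgv_dm_01 {Ω : Type} {q : ℕ} (a a' : Ω → Fin q) (ω : Ω) :
    0 ≤ dm a a' ω ∧ dm a a' ω ≤ 1 := by
  unfold dm
  split_ifs <;> norm_num

theorem pgv_inv_meas {Ω : Type} [MeasurableSpace Ω] {T : Ω ≃ᵐ Ω} {A : Set Ω}
    (hA : MeasurableSet[Inv T 1] A) : MeasurableSet A :=
  (MeasurableSpace.measurableSet_invariants.1 hA).1

theorem pgv_inv_le {Ω : Type} [mΩ : MeasurableSpace Ω] (T : Ω ≃ᵐ Ω) : Inv T 1 ≤ mΩ :=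
  fun _ hA => pgv_inv_meas hA

theorem pgv_inv_mem {Ω : Type} [MeasurableSpace Ω] {T : Ω ≃ᵐ Ω} {A : Set Ω}
    (hA : MeasurableSet[Inv T 1] A) (n : ℕ) (ω : Ω) : T^[n] ω ∈ A ↔ ω ∈ A := by
  have h1 : T^[1] ⁻¹' A = A := (MeasurableSpace.measurableSet_invariants.1 hA).2
  have h2 : ∀ ω, T ω ∈ A ↔ ω ∈ A := by
    intro ω
    constructor
    · intro h
      rw [← h1]
      exact h
    · intro h
      rw [← h1] at h
      exact h
  induction n with
  | zero => exact Iff.rfl
  | succ n ih =>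
    rw [Function.iterate_succ_apply']
    exact (h2 _).trans ih

/-- the final arithmetic -/
theorem pgv_arith {γ D i a b s x : ℝ} (h1 : D * i * x ≤ a + b + i * s)
    (h2 : s ≤ γ / 8 * x) (h3 : γ ≤ D) (hi : 0 ≤ i) (hx : 0 ≤ x) :
    7 / 8 * γ * i * x ≤ a + b := by
  have h4 : i * s ≤ i * (γ / 8 * x) := mul_le_mul_of_nonneg_left h2 hi
  have h5 : γ * (i * x) ≤ D * (i * x) := mul_le_mul_of_nonneg_right h3 (mul_nonneg hi hx)
  nlinarith [h4, h5, h1]

theorem pf_PGV (hP : T_PIRV) (hS : Pool.Agent.H28.LF.T_STC) (hL : Pool.Agent.H28.LF.T_LAB) :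
    T_PGV := by
  intro Ω _ P _ T U s γ q m I Bad a a' A hT hU hs hγ0 hγ hm hc ha ha' hA hE
  classical
  have hAm : MeasurableSet A := pgv_inv_meas hA
  have hdm : Measurable (dm a a') := pgv_dm_meas ha ha'
  obtain ⟨-, -, hds, -, -⟩ := hL Ω P T U s q m Bad a a' A hT hU hs ha ha' hA
  have hγ1 : γ ≤ 1 := hγ.trans hds
  have hfm : Measurable (A.indicator (dm a a')) := hdm.indicator hAm
  have hf01 : ∀ ω, 0 ≤ A.indicator (dm a a') ω ∧ A.indicator (dm a a') ω ≤ 1 := by
    intro ω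
    by_cases h : ω ∈ A
    · rw [Set.indicator_of_mem h]
      exact pgv_dm_01 a a' ω
    · rw [Set.indicator_of_notMem h]
      norm_num
  have hint : Integrable (dm a a') P := by
    refine Integrable.of_bound hdm.aestronglyMeasurable 1 (Eventually.of_forall fun ω => ?_)
    rw [Real.norm_eq_abs, abs_of_nonneg (pgv_dm_01 a a' ω).1]
    exact (pgv_dm_01 a a' ω).2
  have hmpos : (0 : ℝ) < m := by exact_mod_cast hm
  have hkp : 0 ≤ kp γ := by
    unfold kp
    positivity
  have hind : P[A.indicator (dm a a') | Inv T 1] =ᵐ[P] A.indicator (P[dm a a' | Inv T 1]) :=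
    condExp_indicator hint hA
  have hE' : ∀ᵐ ω ∂P, (P[A.indicator (dm a a') | Inv T 1]) ω ≤ 2 * (kp γ / m) := by
    filter_upwards [hind, hE] with ω h1 h2
    rw [h1]
    by_cases h : ω ∈ A
    · rw [Set.indicator_of_mem h]
      have h3 := h2 h
      have h4 : 2 * (kp γ / m) = 2 * kp γ / m := by ring
      rw [h4]
      exact h3
    · rw [Set.indicator_of_notMem h]
      positivity
  have hstc := hS Ω P T U (A.indicator (dm a a')) m γ (kp γ / m) hT hU hfm hf01 hγ0 hγ1
    (div_nonneg hkp hmpos.le) (by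
      have h : (m : ℝ) * (kp γ / m) = γ ^ 2 / 16384 := by
        unfold kp
        field_simp
      exact h.le) hE'
  have hCd : ∀ d, Cd U P T (A.indicator (dm a a')) Set.univ d = Cd U P T (dm a a') A d := by
    intro d
    unfold Cd
    apply congrArg (ul U)
    funext k
    apply congrArg (avgP 2 k)
    funext p
    rw [setIntegral_univ, ← integral_indicator hAm]
    apply integral_congr_ae
    refine Eventually.of_forall fun ω => ?_
    by_cases h : ω ∈ A
    · have h' : T^[p * d] ω ∈ A := (pgv_inv_mem hA _ ω).2 h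
      simp only [Set.indicator_of_mem h, Set.indicator_of_mem h']
    · simp only [Set.indicator_of_notMem h, zero_mul]
  have hfint : ∫ ω, A.indicator (dm a a') ω ∂P = ∫ ω in A, dm a a' ω ∂P := integral_indicator hAm
  have hsum : 2 * ∑ d ∈ Icc 1 m, Cd U P T (dm a a') A d ≤ γ / 8 * ∫ ω in A, dm a a' ω ∂P := by
    rw [← hfint]
    calc 2 * ∑ d ∈ Icc 1 m, Cd U P T (dm a a') A d
        = 2 * ∑ d ∈ Icc 1 m, Cd U P T (A.indicator (dm a a')) Set.univ d := by
          rw [Finset.sum_congr rfl fun d _ => hCd d]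
      _ ≤ _ := hstc
  have hpir := hP Ω P T U s q m I Bad a a' A hT hU hs hc ha ha' hA
  refine pgv_arith (D := ds U s) (s := 2 * ∑ d ∈ Icc 1 m, Cd U P T (dm a a') A d) ?_ hsum hγ
    (Nat.cast_nonneg _) (integral_nonneg fun ω => (pgv_dm_01 a a' ω).1)
  calc ds U s * (I.card : ℝ) * ∫ ω in A, dm a a' ω ∂P ≤ _ := hpir
    _ = _ := by ring

end Pool.Agent.H54.V
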