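import Pool.Agent.H83.V.T3
import Pool.Agent.H67.AG.T4

/-!
# Board lvv_modules, row ENV: the last step
-/

set_option autoImplicit false

open MeasureTheory ProbabilityTheory Filter Topology Finset
open scoped Nat ENNReal

namespace Pool.Agent.H54.V

open Pool.Agent.H67.AG (avgP ul Inv SA JJ TT triv Fac)
open Pool.Agent.H28.LF (Wd La Cd dm ds)
open Pool.Agent.H83.V

theorem env_comm {X : Type} (T : X → X) (n : ℕ) (y : X) : T^[n] (T y) = T (T^[n] y) := by
  rw [← Function.iterate_succ_apply, Function.iterate_succ_apply']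

theorem env_inv_le {Ω : Type} [mΩ : MeasurableSpace Ω] (T : Ω ≃ᵐ Ω) : Inv T 1 ≤ mΩ :=
  fun _ hA => (MeasurableSpace.measurableSet_invariants.1 hA).1

/-- the integral of the mismatch -/
theorem env_int {Ω : Type} [MeasurableSpace Ω] (P : Measure Ω) {q : ℕ} {a a' : Ω → Fin q}
    (ha : Measurable a) (ha' : Measurable a') :
    ∫ ω, dm a a' ω ∂P = P.real {ω | a' ω ≠ a ω} := by
  have hm : MeasurableSet {ω | a' ω ≠ a ω} := (measurableSet_eq_fun ha' ha).compl
  have h : dm a a' = {ω | a' ω ≠ a ω}.indicator fun _ => (1 : ℝ) := by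
    funext ω
    unfold dm
    by_cases h : a ω = a' ω
    · rw [if_pos h, Set.indicator_of_notMem]
      exact fun h' => h' h.symm
    · rw [if_neg h, Set.indicator_of_mem]
      exact fun h' => h h'.symm
  rw [h, integral_indicator hm]
  simp

/-- the frequency of the mismatches with the shifted point is constant -/
theorem env_const (hM : T_MB) (c : Vx) (n : ℕ) :
    ∀ᵐ y ∂c.μ, c.M (y, c.T^[n] y) = c.μ.real {x | c.a (c.T^[n] x) ≠ c.a x} := by
  obtain ⟨hMm, hMT, hMb, -, hMc⟩ := hM c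
  have hmp : MeasurePreserving c.T c.μ c.μ := c.erg.toMeasurePreserving
  have hf0 : Fac c.μ c.T c.μ c.T (fun y => y) := ⟨MeasurePreserving.id _, fun _ => rfl⟩
  have hfn : Fac c.μ c.T c.μ c.T (c.T^[n]) := ⟨hmp.iterate n, env_comm c.T n⟩
  have h1 := hMc c.X c.μ c.T (fun y => y) (c.T^[n]) hmp hf0 hfn
  have hTn : Measurable (c.T^[n]) := c.T.measurable.iterate n
  have hh : Measurable fun y => c.M (y, c.T^[n] y) := hMm.comp (measurable_id.prodMk hTn)
  have hinv : (fun y => c.M (y, c.T^[n] y)) ∘ c.T =ᵐ[c.μ] fun y => c.M (y, c.T^[n] y) := by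
    refine Eventually.of_forall fun y => ?_
    change c.M (c.T y, c.T^[n] (c.T y)) = c.M (y, c.T^[n] y)
    rw [env_comm]
    exact hMT (y, c.T^[n] y)
  obtain ⟨k, hk⟩ := c.erg.ae_eq_const_of_ae_eq_comp_ae hh.aestronglyMeasurable hinv
  have h2 : ∫ y, c.M (y, c.T^[n] y) ∂c.μ = k := by
    rw [integral_congr_ae hk]
    simp
  have h3 : ∫ y, c.M (y, c.T^[n] y) ∂c.μ
      = ∫ y, dm (fun y => c.a y) (fun y => c.a (c.T^[n] y)) y ∂c.μ := by
    rw [← integral_congr_ae h1]
    exact integral_condExp (env_inv_le c.T)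
  have h4 := env_int c.μ (a := fun y => c.a y) (a' := fun y => c.a (c.T^[n] y)) c.am
    (c.am.comp hTn)
  have h5 : k = c.μ.real {x | c.a (c.T^[n] x) ≠ c.a x} := by
    rw [← h2, h3, h4]
  filter_upwards [hk] with y hy
  rw [hy, ← h5]
  rfl

/-- the frequency is not in the gap -/
theorem env_gap (hM : T_MB) (hG : T_GAP) (c : Vx) (n : ℕ) :
    ¬ (c.ulo < c.μ.real {x | c.a (c.T^[n] x) ≠ c.a x} ∧
      c.μ.real {x | c.a (c.T^[n] x) ≠ c.a x} ≤ c.uh) := by
  have hmp : MeasurePreserving c.T c.μ c.μ := c.erg.toMeasurePreserving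
  have hf0 : Fac c.μ c.T c.μ c.T (fun y => y) := ⟨MeasurePreserving.id _, fun _ => rfl⟩
  have hfn : Fac c.μ c.T c.μ c.T (c.T^[n]) := ⟨hmp.iterate n, env_comm c.T n⟩
  have h1 := hG c c.X c.μ c.T (fun y => y) (c.T^[n]) hmp hf0 hfn
  obtain ⟨y, hy1, hy2⟩ := (h1.and (env_const hM c n)).exists
  rw [hy2] at hy1
  exact hy1

/-- the triangle inequality -/
theorem env_tri (hM : T_MB) (c : Vx) (m n : ℕ) :
    c.μ.real {x | c.a (c.T^[m + n] x) ≠ c.a x} ≤
      c.μ.real {x | c.a (c.T^[m] x) ≠ c.a x} + c.μ.real {x | c.a (c.T^[n] x) ≠ c.a x} := by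
  obtain ⟨-, hMT, hMb, -, -⟩ := hM c
  have hTi : ∀ (k : ℕ) (p : c.X × c.X), c.M (c.T^[k] p.1, c.T^[k] p.2) = c.M p := by
    intro k
    induction k with
    | zero => intro p; rfl
    | succ k ih =>
      intro p
      rw [Function.iterate_succ_apply, Function.iterate_succ_apply]
      exact (ih (c.T p.1, c.T p.2)).trans (hMT p)
  obtain ⟨y, ⟨hy1, hy2⟩, hy3⟩ :=
    (((env_const hM c (m + n)).and (env_const hM c m)).and (env_const hM c n)).exists
  rw [← hy1, ← hy2, ← hy3]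
  have h1 := (hMb y (c.T^[m] y) (c.T^[m + n] y)).2.2.2.2
  have h2 : c.T^[m + n] y = c.T^[m] (c.T^[n] y) := Function.iterate_add_apply _ _ _ _
  have h3 : c.M (c.T^[m] y, c.T^[m] (c.T^[n] y)) = c.M (y, c.T^[n] y) := hTi m (y, c.T^[n] y)
  rw [h2] at h1 ⊢
  rw [h3] at h1
  exact h1

theorem pf_ENV (hM : T_MB) (hN : T_NUM) (hG : T_GAP) (hJ : Pool.Agent.H67.AG.T_JT) :
    T_ENV := by
  intro c hCP
  obtain ⟨hMm, hMT, hMb, -, -⟩ := hM c
  obtain ⟨-, hlo, hhi, -, hsm⟩ := hN c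
  have hEm : MeasurableSet c.Ec := measurableSet_le hMm measurable_const
  have hpos : 0 < (c.μ.prod c.μ).real c.Ec := by
    have h : 0 < (JJ c.μ (triv c.X)).real c.Ec := hCP
    rwa [hJ c.X c.μ] at h
  have hne : (c.μ.prod c.μ) c.Ec ≠ 0 := by
    intro h
    rw [Measure.real, h] at hpos
    exact lt_irrefl _ hpos
  have hx : ∃ x, c.μ (Prod.mk x ⁻¹' c.Ec) ≠ 0 := by
    by_contra hcon
    push Not at hcon
    apply hne
    rw [Measure.prod_apply hEm]
    simp [hcon]
  obtain ⟨x, hx⟩ := hx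
  have hSm : MeasurableSet (Prod.mk x ⁻¹' c.Ec) := measurable_prodMk_left hEm
  have hmp : MeasurePreserving c.T c.μ c.μ := c.erg.toMeasurePreserving
  obtain ⟨r, hr, hr'⟩ :=
    hmp.conservative.exists_gt_measure_inter_ne_zero hSm.nullMeasurableSet hx 0
  have hr2 : c.μ.real {x | c.a (c.T^[r] x) ≠ c.a x} ≤ 2 * c.ulo := by
    by_contra hcon
    push Not at hcon
    apply hr'
    have h1 : ∀ᵐ y ∂c.μ, y ∉ Prod.mk x ⁻¹' c.Ec ∩ c.T^[r] ⁻¹' (Prod.mk x ⁻¹' c.Ec) := by
      filter_upwards [env_const hM c r] with y hy hmem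
      obtain ⟨h2, h3⟩ := hmem
      have h4 : c.M (x, y) ≤ c.ulo := h2
      have h5 : c.M (x, c.T^[r] y) ≤ c.ulo := h3
      have h6 := (hMb y x (c.T^[r] y)).2.2.2.2
      have h7 : c.M (y, x) = c.M (x, y) := (hMb y x x).2.2.2.1
      rw [← hy] at hcon
      linarith
    exact measure_eq_zero_iff_ae_notMem.2 h1
  have key : ∀ j, c.μ.real {x | c.a (c.T^[r * j] x) ≠ c.a x} ≤ c.ulo := by
    have h1 : c.μ.real {x | c.a (c.T^[r] x) ≠ c.a x} ≤ c.ulo := by
      by_contra hcon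
      push Not at hcon
      exact env_gap hM hG c r ⟨hcon, by linarith⟩
    intro j
    induction j with
    | zero =>
      have h2 : {x | c.a (c.T^[r * 0] x) ≠ c.a x} = ∅ := by
        ext y
        simp
      rw [h2]
      simp [hlo.le]
    | succ j ih =>
      by_contra hcon
      push Not at hcon
      refine env_gap hM hG c (r * (j + 1)) ⟨hcon, ?_⟩
      have h2 := env_tri hM c (r * j) r
      have h3 : r * (j + 1) = r * j + r := by ring
      rw [h3]
      linarith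
  obtain ⟨j, hj⟩ := c.np r hr
  have := key j
  linarith

end Pool.Agent.H54.V
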